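import Pool.Agent.Lib.MP_16285c_agS.Bez.Spec

/-!
# Irreducibility in families (Z3)
-/

set_option autoImplicit false

namespace Pool.Agent.Lib.MP_16285c_agS.Bez

namespace BNM

theorem unit_of_factor {S : Type} [CommRing S] [IsDomain S] {Q A B : Polynomial S}
    (hQ : Irreducible Q) (hA : A.Monic) (hB : B.Monic) (hAB : A * B = Q) :
    A.natDegree = 0 ∨ B.natDegree = 0 := by
  have h := hQ.isUnit_or_isUnit hAB.symm
  rcases h with h | h
  · left
    rw [hA.isUnit_iff.1 h]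
    simp
  · right
    rw [hB.isUnit_iff.1 h]
    simp

theorem one_degree (hNull : StmtNull) (hFac : StmtFac) {R Ω : Type} [CommRing R] [IsDomain R]
    [Field Ω] [IsAlgClosed Ω] (ι : R →+* Ω) (hι : Function.Injective ι) (n : ℕ)
    (P : Polynomial (MvPolynomial (Fin n) R))
    (hirr : Irreducible (P.map (MvPolynomial.map ι))) (a b : ℕ) (ha : 1 ≤ a) (hb : 1 ≤ b) :
    ∃ g : R, g ≠ 0 ∧ ∀ (F : Type) [Field F] (φ : R →+* F), φ g ≠ 0 →
      ∀ A B : Polynomial (MvPolynomial (Fin n) F), A.Monic → B.Monic → A.natDegree = a →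
        B.natDegree = b → A * B ≠ P.map (MvPolynomial.map φ) := by
  obtain ⟨σ, hσ, I, h⟩ := hFac R n P a b
  obtain ⟨g, hg, hgI⟩ := hNull R Ω ι hι σ I (by
    intro c
    by_contra hc
    push Not at hc
    obtain ⟨A, B, hA, hB, hAa, hBb, hAB⟩ := (h Ω ι).2 c hc
    rcases unit_of_factor hirr hA hB hAB with h0 | h0
    · omega
    · omega)
  refine ⟨g, hg, ?_⟩
  intro F _ φ hφ A B hA hB hAa hBb hAB
  obtain ⟨c, hc⟩ := (h F φ).1 A B hA hB hAa hBb hAB
  have h1 := hc _ hgI
  rw [MvPolynomial.eval₂_C] at h1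
  exact hφ h1

end BNM

/-- **(Z3)** Irreducibility in families. -/
theorem tBN : StmtNull → StmtFac → StmtBN := by
  intro hNull hFac R Ω _ _ _ _ ι hι n P hP hirr
  have key : ∀ a : ℕ, ∃ g : R, g ≠ 0 ∧ (1 ≤ a → 1 ≤ P.natDegree - a →
      ∀ (F : Type) [Field F] (φ : R →+* F), φ g ≠ 0 →
      ∀ A B : Polynomial (MvPolynomial (Fin n) F), A.Monic → B.Monic → A.natDegree = a →
        B.natDegree = P.natDegree - a → A * B ≠ P.map (MvPolynomial.map φ)) := by
    intro a
    by_cases h : 1 ≤ a ∧ 1 ≤ P.natDegree - a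
    · obtain ⟨g, hg, hg'⟩ := BNM.one_degree hNull hFac ι hι n P hirr a (P.natDegree - a) h.1 h.2
      exact ⟨g, hg, fun _ _ => hg'⟩
    · exact ⟨1, one_ne_zero, fun h1 h2 => absurd ⟨h1, h2⟩ h⟩
  choose g hg0 hg using key
  refine ⟨∏ a ∈ Finset.range (P.natDegree + 1), g a,
    Finset.prod_ne_zero_iff.2 fun a _ => hg0 a, ?_⟩
  intro F _ φ hφ
  rw [map_prod] at hφ
  have hφ' : ∀ a ≤ P.natDegree, φ (g a) ≠ 0 := fun a ha =>
    Finset.prod_ne_zero_iff.1 hφ a (Finset.mem_range.2 (by omega))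
  have hmon : (P.map (MvPolynomial.map φ)).Monic := hP.map _
  have hdeg : (P.map (MvPolynomial.map (σ := Fin n) φ)).natDegree = P.natDegree :=
    hP.natDegree_map _
  rw [hmon.irreducible_iff_natDegree]
  refine ⟨?_, ?_⟩
  · intro h1
    rw [h1, Polynomial.natDegree_one] at hdeg
    have h2 : P = 1 := hP.natDegree_eq_zero.1 hdeg.symm
    rw [h2, Polynomial.map_one] at hirr
    exact not_irreducible_one hirr
  · intro A B hA hB hAB
    by_contra hcon
    push Not at hcon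
    obtain ⟨hA0, hB0⟩ := hcon
    have hsum : A.natDegree + B.natDegree = P.natDegree := by
      rw [← hdeg, ← hAB, hA.natDegree_mul hB]
    exact hg A.natDegree (by omega) (by omega) F φ (hφ' _ (by omega)) A B hA hB rfl (by omega) hAB

end Pool.Agent.Lib.MP_16285c_agS.Bez
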