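import Pool.Agent.Lib.MP_16285c_agS.Bez.Spec

/-!
# Irreducibility in families for one variable (Z4)
-/

set_option autoImplicit false

namespace Pool.Agent.Lib.MP_16285c_agS.Bez

namespace BN1M

/-- The ring homomorphism from polynomials in one variable to `MvPolynomial (Fin 1)`. -/
noncomputable def toMv (R : Type) [CommRing R] : Polynomial R →+* MvPolynomial (Fin 1) R :=
  Polynomial.eval₂RingHom MvPolynomial.C (MvPolynomial.X 0)

/-- The inverse of `toMv`. -/
noncomputable def ofMv (R : Type) [CommRing R] : MvPolynomial (Fin 1) R →+* Polynomial R :=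
  MvPolynomial.eval₂Hom Polynomial.C (fun _ => Polynomial.X)

theorem toMv_C {R : Type} [CommRing R] (r : R) : toMv R (Polynomial.C r) = MvPolynomial.C r := by
  simp [toMv]

theorem toMv_X {R : Type} [CommRing R] : toMv R Polynomial.X = MvPolynomial.X 0 := by
  simp [toMv]

/-- The isomorphism. -/
noncomputable def e (R : Type) [CommRing R] : Polynomial R ≃+* MvPolynomial (Fin 1) R :=
  RingEquiv.ofRingHom (toMv R) (ofMv R)
    (by
      apply MvPolynomial.ringHom_ext
      · intro r
        simp [ofMv, toMv]
      · intro i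
        rw [Subsingleton.elim i 0]
        simp [ofMv, toMv])
    (by
      apply Polynomial.ringHom_ext
      · intro r
        simp [ofMv, toMv]
      · simp [ofMv, toMv])

theorem e_nat {R F : Type} [CommRing R] [CommRing F] (φ : R →+* F) :
    (toMv F).comp (Polynomial.mapRingHom φ) = (MvPolynomial.map φ).comp (toMv R) := by
  apply Polynomial.ringHom_ext
  · intro r
    simp [toMv]
  · simp [toMv]

theorem irr_iff {F : Type} [CommRing F] (Q : Polynomial (Polynomial F)) :
    Irreducible (Q.map (toMv F)) ↔ Irreducible Q :=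
  MulEquiv.irreducible_iff (Polynomial.mapEquiv (e F)) (x := Q)

theorem map_nat {R F : Type} [CommRing R] [CommRing F] (φ : R →+* F)
    (P : Polynomial (Polynomial R)) :
    (P.map (toMv R)).map (MvPolynomial.map φ) = (P.map (Polynomial.mapRingHom φ)).map (toMv F) := by
  rw [Polynomial.map_map, Polynomial.map_map, e_nat]

end BN1M

/-- **(Z4)** Irreducibility in families, one variable. -/
theorem tBN1 : StmtBN → StmtBN1 := by
  intro hBN R Ω _ _ _ _ ι hι P hP hirr
  obtain ⟨g, hg, h⟩ := hBN R Ω ι hι 1 (P.map (BN1M.toMv R)) (hP.map _) (by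
    rw [BN1M.map_nat, BN1M.irr_iff]
    exact hirr)
  refine ⟨g, hg, fun F _ φ hφ => ?_⟩
  have h1 := h F φ hφ
  rw [BN1M.map_nat, BN1M.irr_iff] at h1
  exact h1

end Pool.Agent.Lib.MP_16285c_agS.Bez
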