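import Pool.Agent.Lib.MP_16285c_agS.Bez.Spec
import Mathlib.RingTheory.AlgebraicIndependent.Transcendental

/-!
# A theorem of Bertini
-/

set_option autoImplicit false

namespace Pool.Agent.Lib.MP_16285c_agS.Bez

open scoped IntermediateField

namespace Bert0M

section

variable {κ E : Type} [Field κ] [Field E] [Algebra κ E] (x : Fin 2 → E)

/-- The linear form. -/
noncomputable def l (t : κ) : E := x 0 + algebraMap κ E t * x 1

/-- Two different linear forms are algebraically independent. -/
theorem indep (hx : AlgebraicIndependent κ x) {t t' : κ} (h : t ≠ t') :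
    AlgebraicIndependent κ ![l x t, l x t'] := by
  have hd : t' - t ≠ 0 := sub_ne_zero.2 (Ne.symm h)
  let φ : MvPolynomial (Fin 2) κ →ₐ[κ] MvPolynomial (Fin 2) κ :=
    MvPolynomial.aeval ![MvPolynomial.X 0 + MvPolynomial.C t * MvPolynomial.X 1,
      MvPolynomial.X 0 + MvPolynomial.C t' * MvPolynomial.X 1]
  let ψ : MvPolynomial (Fin 2) κ →ₐ[κ] MvPolynomial (Fin 2) κ :=
    MvPolynomial.aeval ![MvPolynomial.X 0 -
      MvPolynomial.C t * (MvPolynomial.C (t' - t)⁻¹ * (MvPolynomial.X 1 - MvPolynomial.X 0)),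
      MvPolynomial.C (t' - t)⁻¹ * (MvPolynomial.X 1 - MvPolynomial.X 0)]
  have hψφ : ψ.comp φ = AlgHom.id κ _ := by
    refine MvPolynomial.algHom_ext fun i => ?_
    have hC : ∀ c : κ, ψ (MvPolynomial.C c) = MvPolynomial.C c := fun c => by
      exact MvPolynomial.aeval_C _ _
    have h0 : ψ (MvPolynomial.X 0) = MvPolynomial.X 0 -
        MvPolynomial.C t * (MvPolynomial.C (t' - t)⁻¹ * (MvPolynomial.X 1 - MvPolynomial.X 0)) := by
      simp [ψ]
    have h1 : ψ (MvPolynomial.X 1) =
        MvPolynomial.C (t' - t)⁻¹ * (MvPolynomial.X 1 - MvPolynomial.X 0) := by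
      simp [ψ]
    have h2 : (MvPolynomial.C t' - MvPolynomial.C t) * MvPolynomial.C (t' - t)⁻¹ =
        (1 : MvPolynomial (Fin 2) κ) := by
      rw [← MvPolynomial.C_sub, ← MvPolynomial.C_mul, mul_inv_cancel₀ hd, MvPolynomial.C_1]
    fin_cases i
    · change ψ (φ (MvPolynomial.X 0)) = MvPolynomial.X 0
      have h3 : φ (MvPolynomial.X 0) = MvPolynomial.X 0 + MvPolynomial.C t * MvPolynomial.X 1 := by
        simp [φ]
      rw [h3, map_add, map_mul, hC, h0, h1]
      ring
    · change ψ (φ (MvPolynomial.X 1)) = MvPolynomial.X 1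
      have h3 : φ (MvPolynomial.X 1) = MvPolynomial.X 0 + MvPolynomial.C t' * MvPolynomial.X 1 := by
        simp [φ]
      rw [h3, map_add, map_mul, hC, h0, h1]
      linear_combination (MvPolynomial.X 1 - MvPolynomial.X 0) * h2
  have hφ : Function.Injective φ := by
    intro p q hpq
    have h1 : (ψ.comp φ) p = (ψ.comp φ) q := congrArg ψ hpq
    rwa [hψφ] at h1
  have hc : (MvPolynomial.aeval ![l x t, l x t'] : MvPolynomial (Fin 2) κ →ₐ[κ] E) =
      (MvPolynomial.aeval x).comp φ := by
    refine MvPolynomial.algHom_ext fun i => ?_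
    fin_cases i <;> simp [φ, l]
  rw [AlgebraicIndependent, hc]
  exact fun p q hpq => hφ (hx hpq)

/-- The algebraic elements over the line. -/
noncomputable def K (t : κ) : IntermediateField κ E :=
  (algebraicClosure κ⟮l x t⟯ E).restrictScalars κ

theorem mem_K {t : κ} {α : E} : α ∈ K x t ↔ IsAlgebraic κ⟮l x t⟯ α :=
  mem_algebraicClosure_iff

theorem l_mem (t : κ) : l x t ∈ K x t := by
  rw [mem_K]
  exact isAlgebraic_algebraMap (⟨l x t, IntermediateField.mem_adjoin_simple_self κ _⟩ :
    κ⟮l x t⟯)

theorem trans (hx : AlgebraicIndependent κ x) {t t' : κ} (h : t ≠ t') :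
    Transcendental (K x t) (l x t') := by
  intro ha
  have h1 : IsAlgebraic (algebraicClosure κ⟮l x t⟯ E) (l x t') := ha
  have h2 : IsAlgebraic κ⟮l x t⟯ (l x t') := h1.restrictScalars _
  have h3 : IsAlgebraic (Algebra.adjoin κ {l x t}) (l x t') :=
    IntermediateField.isAlgebraic_adjoin_iff.1 h2
  have h4 := (indep x hx h).transcendental_adjoin (s := {0}) (i := 1) (by simp)
  have hs : (![l x t, l x t'] '' ({0} : Set (Fin 2))) = {l x t} := by simp
  rw [hs] at h4
  exact h4 h3

/-- The field generated by the algebraic elements. -/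
noncomputable def L (t : κ) :
    IntermediateField (IntermediateField.adjoin κ (Set.range x)) E :=
  IntermediateField.adjoin (IntermediateField.adjoin κ (Set.range x)) (K x t : Set E)

theorem L_sub {t t' : κ} (h : t ≠ t') {α : E} (hα : α ∈ L x t) :
    α ∈ IntermediateField.adjoin κ ((K x t : Set E) ∪ {l x t'}) := by
  have hd : t' - t ≠ 0 := sub_ne_zero.2 (Ne.symm h)
  set N := IntermediateField.adjoin κ ((K x t : Set E) ∪ {l x t'}) with hN
  have hK : ∀ y ∈ K x t, y ∈ N := fun y hy =>
    IntermediateField.subset_adjoin κ _ (Or.inl hy)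
  have h1 : l x t ∈ N := hK _ (l_mem x t)
  have h2 : l x t' ∈ N := IntermediateField.subset_adjoin κ _ (Or.inr rfl)
  have hx1 : x 1 ∈ N := by
    have h3 : x 1 = algebraMap κ E (t' - t)⁻¹ * (l x t' - l x t) := by
      have h4 : algebraMap κ E (t' - t)⁻¹ * (algebraMap κ E t' - algebraMap κ E t) = 1 := by
        rw [← map_sub, ← map_mul, inv_mul_cancel₀ hd, map_one]
      simp only [l]
      linear_combination (-x 1) * h4
    rw [h3]
    exact N.mul_mem (N.algebraMap_mem _) (N.sub_mem h2 h1)
  have hx0 : x 0 ∈ N := by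
    have h3 : x 0 = l x t - algebraMap κ E t * x 1 := by
      simp only [l]
      ring
    rw [h3]
    exact N.sub_mem h1 (N.mul_mem (N.algebraMap_mem _) hx1)
  have hM : IntermediateField.adjoin κ (Set.range x) ≤ N := by
    rw [IntermediateField.adjoin_le_iff]
    rintro _ ⟨i, rfl⟩
    fin_cases i
    · exact hx0
    · exact hx1
  have hL : L x t ≤ IntermediateField.extendScalars hM := by
    rw [L, IntermediateField.adjoin_le_iff]
    intro y hy
    exact hK y hy
  exact hL hα

end

end Bert0M

open Bert0M in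
theorem tBert0 : StmtBertA → StmtBert0 := by
  intro hA κ E _ _ _ _ x hx hfin hsep
  set M := IntermediateField.adjoin κ (Set.range x) with hM
  have hF : Finite (IntermediateField M E) := by
    rw [← Field.exists_primitive_element_iff_finite_intermediateField]
    exact ⟨inferInstance, Field.exists_primitive_element M E⟩
  refine Set.Finite.of_finite_image (f := fun t : κ => (L x t : IntermediateField M E))
    (Set.toFinite _) ?_
  intro t _ t' ht' hL
  by_contra hne
  apply ht'
  intro α hα
  have h1 : α ∈ K x t' := (mem_K x).2 hα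
  have h2 : α ∈ L x t' := IntermediateField.subset_adjoin _ _ h1
  have h3 : α ∈ L x t := by
    have hL' : L x t = L x t' := hL
    rw [hL']
    exact h2
  exact hA κ E (K x t) (l x t') (trans x hx hne) α (L_sub x hne h3) hα

end Pool.Agent.Lib.MP_16285c_agS.Bez
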