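import Pool.Agent.Lib.MP_16285c_agS.Bez.Spec
import Mathlib.LinearAlgebra.Dual.Lemmas
import Mathlib.FieldTheory.Minpoly.Field

/-!
# Algebraic elements of `K(T)` over `κ(T)`
-/

set_option autoImplicit false

namespace Pool.Agent.Lib.MP_16285c_agS.Bez

open scoped IntermediateField

namespace BertAM

open Polynomial

/-- The image of a polynomial under a linear functional on the coefficients. -/
noncomputable def lf {κ K : Type} [Field κ] [Field K] [Algebra κ K] (l : K →ₗ[κ] κ) (N : ℕ)
    (a : K[X]) : κ[X] :=
  ∑ i ∈ Finset.range (N + 1), C (l (a.coeff i)) * X ^ i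

theorem lf_eval {κ K : Type} [Field κ] [Field K] [Algebra κ K] (l : K →ₗ[κ] κ) (N : ℕ)
    (a : K[X]) (h : a.natDegree ≤ N) (s : κ) :
    (lf l N a).eval s = l (a.eval (algebraMap κ K s)) := by
  unfold lf
  rw [eval_finsetSum, eval_eq_sum_range' (Nat.lt_succ_of_le h), map_sum]
  refine Finset.sum_congr rfl fun i _ => ?_
  rw [eval_mul, eval_C, eval_pow, eval_X, ← map_pow, mul_comm (a.coeff i), ← Algebra.smul_def,
    map_smul, smul_eq_mul, mul_comm]

theorem lf_ne {κ K : Type} [Field κ] [Field K] [Algebra κ K] (l : K →ₗ[κ] κ) (N : ℕ)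
    (a : K[X]) (j : ℕ) (hj : j ≤ N) (h : l (a.coeff j) ≠ 0) : lf l N a ≠ 0 := by
  intro h0
  apply h
  have h1 := congrArg (fun p => coeff p j) h0
  simp only [lf, finsetSum_coeff, coeff_C_mul, coeff_X_pow, coeff_zero, mul_ite, mul_one,
    mul_zero, Finset.sum_ite_eq, Finset.mem_range] at h1
  rw [if_pos (Nat.lt_succ_of_le hj)] at h1
  exact h1

/-- A root of a nonzero polynomial over an algebraically closed field is in this field. -/
theorem mem_of_root {κ K : Type} [Field κ] [IsAlgClosed κ] [Field K] [Algebra κ K] (v : K)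
    (h : IsAlgebraic κ v) : ∃ c : κ, algebraMap κ K c = v := by
  have h1 := minpoly.mem_range_of_degree_eq_one κ v
    (IsAlgClosed.degree_eq_one_of_irreducible κ (minpoly.irreducible h.isIntegral))
  exact h1

/-- Algebraic elements over `κ(T)` satisfy a relation over `κ[T]`. -/
theorem exists_rel {κ E : Type} [Field κ] [Field E] [Algebra κ E] (T α : E)
    (h : IsAlgebraic κ⟮T⟯ α) : ∃ P : Polynomial (Polynomial κ), P ≠ 0 ∧
      (P.map (aeval T : κ[X] →ₐ[κ] E).toRingHom).eval α = 0 := by
  open scoped IntermediateField.algebraAdjoinAdjoin in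
  have h1 : IsAlgebraic (Algebra.adjoin κ {T}) α :=
    (IsFractionRing.isAlgebraic_iff (Algebra.adjoin κ {T}) κ⟮T⟯ E).mpr h
  obtain ⟨q, hq, hq0⟩ := h1
  let φ : κ[X] →ₐ[κ] Algebra.adjoin κ {T} :=
    (aeval T : κ[X] →ₐ[κ] E).codRestrict (Algebra.adjoin κ {T}) (fun p => by
      rw [Algebra.adjoin_singleton_eq_range_aeval]
      exact ⟨p, rfl⟩)
  have hφ : Function.Surjective φ := by
    rintro ⟨x, hx⟩
    have hx' := hx
    rw [Algebra.adjoin_singleton_eq_range_aeval] at hx'
    obtain ⟨p, hp⟩ := hx'
    exact ⟨p, Subtype.ext hp⟩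
  obtain ⟨P, hP⟩ := Polynomial.map_surjective φ.toRingHom hφ q
  refine ⟨P, ?_, ?_⟩
  · rintro rfl
    rw [Polynomial.map_zero] at hP
    exact hq hP.symm
  · rw [aeval_def, eval₂_eq_eval_map, ← hP, Polynomial.map_map] at hq0
    have h2 : (algebraMap (Algebra.adjoin κ {T}) E).comp φ.toRingHom =
        (aeval T : κ[X] →ₐ[κ] E).toRingHom := by
      ext x
      · rfl
      · rfl
    rw [h2] at hq0
    exact hq0

end BertAM

open Polynomial in
theorem tBertA : StmtBertA := by
  classical
  intro κ E _ _ _ _ K T hT α hα halg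
  have hinj : Function.Injective (aeval T : K[X] →ₐ[K] E) := transcendental_iff_injective.mp hT
  -- `α` is a quotient
  obtain ⟨a, b, hab⟩ : ∃ a b : K[X], α = aeval T a / aeval T b := by
    rw [← IntermediateField.mem_adjoin_simple_iff K α]
    have h1 : IntermediateField.adjoin κ ((K : Set E) ∪ {T}) ≤
        (IntermediateField.adjoin K {T}).restrictScalars κ := by
      rw [IntermediateField.adjoin_le_iff]
      rintro x (hx | hx)
      · exact (IntermediateField.adjoin K {T}).algebraMap_mem ⟨x, hx⟩
      · exact IntermediateField.subset_adjoin K {T} hx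
    exact h1 hα
  by_cases hb : b = 0
  · rw [hab, hb, map_zero, div_zero]
    exact zero_mem _
  have hbT : aeval T b ≠ 0 := fun h => hb (hinj (h.trans (map_zero _).symm))
  have haT : aeval T a = α * aeval T b := by
    rw [hab, div_mul_cancel₀ _ hbT]
  obtain ⟨P, hP, hP0⟩ := BertAM.exists_rel T α halg
  -- the relation in `K[X]`
  have hrel : ∑ i ∈ Finset.range (P.natDegree + 1),
      ((P.coeff i).map (algebraMap κ K)) * a ^ i * b ^ (P.natDegree - i) = 0 := by
    apply hinj
    rw [map_zero, map_sum]
    have h1 : ∀ i ∈ Finset.range (P.natDegree + 1),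
        aeval T ((P.coeff i).map (algebraMap κ K) * a ^ i * b ^ (P.natDegree - i)) =
        (aeval T b) ^ P.natDegree * (aeval T (P.coeff i) * α ^ i) := by
      intro i hi
      have hi' : i ≤ P.natDegree := Nat.lt_succ_iff.mp (Finset.mem_range.mp hi)
      rw [map_mul, map_mul, map_pow, map_pow, haT, aeval_map_algebraMap, mul_pow]
      conv_rhs => rw [← Nat.sub_add_cancel hi', pow_add]
      ring
    rw [Finset.sum_congr rfl h1, ← Finset.mul_sum]
    have h2 : ∑ i ∈ Finset.range (P.natDegree + 1), aeval T (P.coeff i) * α ^ i = 0 := by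
      rw [eval_map, eval₂_eq_sum_range] at hP0
      exact hP0
    rw [h2, mul_zero]
  -- the values are in `κ`
  have hval : ∀ s : κ, b.eval (algebraMap κ K s) ≠ 0 → P.leadingCoeff.eval s ≠ 0 →
      ∃ c : κ, algebraMap κ K c = a.eval (algebraMap κ K s) / b.eval (algebraMap κ K s) := by
    intro s hs hs'
    apply BertAM.mem_of_root
    refine ⟨P.map (evalRingHom s), ?_, ?_⟩
    · intro h
      apply hs'
      have h1 := congrArg (fun p => coeff p P.natDegree) h
      simp only [coeff_map, coeff_zero] at h1
      exact h1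
    · have h1 := congrArg (eval (algebraMap κ K s)) hrel
      rw [eval_finsetSum, eval_zero] at h1
      have h2 : ∑ i ∈ Finset.range (P.natDegree + 1), eval (algebraMap κ K s)
          ((P.coeff i).map (algebraMap κ K) * a ^ i * b ^ (P.natDegree - i)) =
          (b.eval (algebraMap κ K s)) ^ P.natDegree *
          ∑ i ∈ Finset.range (P.natDegree + 1), algebraMap κ K ((P.coeff i).eval s) *
            (a.eval (algebraMap κ K s) / b.eval (algebraMap κ K s)) ^ i := by
        rw [Finset.mul_sum]
        refine Finset.sum_congr rfl fun i hi => ?_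
        have hi' : i ≤ P.natDegree := Nat.lt_succ_iff.mp (Finset.mem_range.mp hi)
        rw [eval_mul, eval_mul, eval_pow, eval_pow, eval_map, eval₂_at_apply, div_pow]
        have h3 : (b.eval (algebraMap κ K s)) ^ P.natDegree =
            (b.eval (algebraMap κ K s)) ^ (P.natDegree - i) * (b.eval (algebraMap κ K s)) ^ i := by
          rw [← pow_add, Nat.sub_add_cancel hi']
        rw [h3]
        have h4 : (b.eval (algebraMap κ K s)) ^ i ≠ 0 := pow_ne_zero _ hs
        field_simp
      rw [h2] at h1
      have h5 := (mul_eq_zero.mp h1).resolve_left (pow_ne_zero _ hs)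
      rw [aeval_def, eval₂_map, eval₂_eq_sum_range]
      exact h5
  -- the functional
  obtain ⟨l, hl⟩ := Module.Projective.exists_dual_ne_zero κ
    (x := b.leadingCoeff) (leadingCoeff_ne_zero.mpr hb)
  let N := max a.natDegree b.natDegree
  have hB : BertAM.lf l N b ≠ 0 :=
    BertAM.lf_ne l N b b.natDegree (le_max_right _ _) hl
  have hinf : Set.Infinite {s : κ | b.eval (algebraMap κ K s) ≠ 0 ∧ P.leadingCoeff.eval s ≠ 0} := by
    have : Infinite κ := inferInstance
    have f1 : {s : κ | b.eval (algebraMap κ K s) = 0}.Finite := by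
      refine ((b.roots.toFinset.finite_toSet).preimage
        (f := algebraMap κ K) (algebraMap κ K).injective.injOn).subset ?_
      intro s hs
      rw [Set.mem_preimage, Finset.mem_coe, Multiset.mem_toFinset, mem_roots hb]
      exact hs
    have f2 : {s : κ | P.leadingCoeff.eval s = 0}.Finite := by
      refine (P.leadingCoeff.roots.toFinset.finite_toSet).subset ?_
      intro s hs
      rw [Finset.mem_coe, Multiset.mem_toFinset, mem_roots (leadingCoeff_ne_zero.mpr hP)]
      exact hs
    refine (f1.union f2).infinite_compl.mono ?_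
    intro s hs
    exact ⟨fun h => hs (Or.inl h), fun h => hs (Or.inr h)⟩
  have hAB : (BertAM.lf l N a).map (algebraMap κ K) * b = a * (BertAM.lf l N b).map (algebraMap κ K) := by
    apply eq_of_infinite_eval_eq
    refine (hinf.image (algebraMap κ K).injective.injOn).mono ?_
    rintro _ ⟨s, ⟨hs, hs'⟩, rfl⟩
    obtain ⟨c, hc⟩ := hval s hs hs'
    have hav : a.eval (algebraMap κ K s) = algebraMap κ K c * b.eval (algebraMap κ K s) := by
      rw [hc, div_mul_cancel₀ _ hs]
    change eval (algebraMap κ K s) _ = eval (algebraMap κ K s) _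
    rw [eval_mul, eval_mul, eval_map, eval_map, eval₂_at_apply, eval₂_at_apply,
      BertAM.lf_eval l N a (le_max_left _ _), BertAM.lf_eval l N b (le_max_right _ _), hav]
    have h6 : l (algebraMap κ K c * b.eval (algebraMap κ K s)) =
        c * l (b.eval (algebraMap κ K s)) := by
      rw [← Algebra.smul_def, map_smul, smul_eq_mul]
    rw [h6, map_mul]
    ring
  -- conclusion
  have hfin := congrArg (aeval T) hAB
  rw [map_mul, map_mul, aeval_map_algebraMap, aeval_map_algebraMap, haT] at hfin
  have hBT : aeval T (BertAM.lf l N b) ≠ 0 := by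
    intro h
    have h1 : aeval T ((BertAM.lf l N b).map (algebraMap κ K)) = 0 := by
      rw [aeval_map_algebraMap]
      exact h
    have h2 := hinj (h1.trans (map_zero _).symm)
    exact hB ((Polynomial.map_eq_zero _).mp h2)
  rw [IntermediateField.mem_adjoin_simple_iff]
  refine ⟨BertAM.lf l N a, BertAM.lf l N b, ?_⟩
  rw [eq_div_iff hBT]
  apply mul_right_cancel₀ hbT
  rw [hfin]
  ring

end Pool.Agent.Lib.MP_16285c_agS.Bez
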