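import Pool.Agent.Lib.MP_16285c_agS.Bez.Spec

/-!
# Factorizations into monic factors of given degrees are the solutions of a polynomial system
-/

set_option autoImplicit false

namespace Pool.Agent.Lib.MP_16285c_agS.Bez

namespace FacM

variable {T : Type} [CommRing T] {n D a b : ℕ}

/-- the exponent of a bounded exponent -/
noncomputable def ex (m : Fin n → Fin (D + 1)) : Fin n →₀ ℕ :=
  Finsupp.equivFunOnFinite.symm fun l => (m l : ℕ)

theorem ex_inj : Function.Injective (ex : (Fin n → Fin (D + 1)) → (Fin n →₀ ℕ)) := by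
  intro m m' h
  funext l
  have h1 := DFunLike.congr_fun h l
  exact Fin.ext h1

/-- the polynomial with given coefficients -/
noncomputable def cf (c : (Fin n → Fin (D + 1)) → T) : MvPolynomial (Fin n) T :=
  ∑ m : Fin n → Fin (D + 1), MvPolynomial.monomial (ex m) (c m)

/-- the monic polynomial with given lower coefficients -/
noncomputable def pol (k : ℕ) (e : Fin k → MvPolynomial (Fin n) T) :
    Polynomial (MvPolynomial (Fin n) T) :=
  Polynomial.X ^ k + ∑ i : Fin k, Polynomial.C (e i) * Polynomial.X ^ (i : ℕ)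

theorem pol_monic (k : ℕ) (e : Fin k → MvPolynomial (Fin n) T) : (pol k e).Monic :=
  Polynomial.monic_X_pow_add (Polynomial.degree_sum_fin_lt e)

theorem pol_deg [Nontrivial T] (k : ℕ) (e : Fin k → MvPolynomial (Fin n) T) :
    (pol k e).natDegree = k := by
  unfold pol
  rw [Polynomial.natDegree_add_eq_left_of_degree_lt, Polynomial.natDegree_X_pow]
  rw [Polynomial.degree_X_pow]
  exact Polynomial.degree_sum_fin_lt e

theorem pol_map {T' : Type} [CommRing T'] (ψ : MvPolynomial (Fin n) T →+* MvPolynomial (Fin n) T')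
    (k : ℕ) (e : Fin k → MvPolynomial (Fin n) T) :
    (pol k e).map ψ = pol k fun i => ψ (e i) := by
  unfold pol
  rw [Polynomial.map_add, Polynomial.map_pow, Polynomial.map_X, Polynomial.map_sum]
  congr 1
  refine Finset.sum_congr rfl fun i _ => ?_
  rw [Polynomial.map_mul, Polynomial.map_pow, Polynomial.map_X, Polynomial.map_C]

theorem cf_map {T' : Type} [CommRing T'] (ψ : T →+* T') (c : (Fin n → Fin (D + 1)) → T) :
    MvPolynomial.map ψ (cf c) = cf fun m => ψ (c m) := by
  unfold cf
  rw [map_sum]
  exact Finset.sum_congr rfl fun m _ => by rw [MvPolynomial.map_monomial]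

/-- a monic polynomial -/
theorem pol_of {k : ℕ} {A : Polynomial (MvPolynomial (Fin n) T)} (hA : A.Monic)
    (hk : A.natDegree = k) : A = pol k fun i => A.coeff i := by
  have h := hA.as_sum
  rw [hk] at h
  unfold pol
  rw [Fin.sum_univ_eq_sum_range (fun i => Polynomial.C (A.coeff i) * Polynomial.X ^ i) k]
  exact h

/-- a polynomial of bounded degree -/
theorem cf_of {g : MvPolynomial (Fin n) T} (hg : g.totalDegree ≤ D) :
    g = cf fun m : Fin n → Fin (D + 1) => MvPolynomial.coeff (ex m) g := by
  classical
  ext d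
  unfold cf
  rw [MvPolynomial.coeff_sum]
  simp only [MvPolynomial.coeff_monomial]
  by_cases h : ∀ l, d l < D + 1
  · have h0 : ex (fun l => (⟨d l, h l⟩ : Fin (D + 1))) = d := by
      ext l
      rfl
    rw [Finset.sum_eq_single (fun l => (⟨d l, h l⟩ : Fin (D + 1)))]
    · rw [h0, if_pos rfl]
    · intro m _ hm
      rw [if_neg]
      intro h1
      exact hm (ex_inj (h1.trans h0.symm))
    · intro h1
      exact absurd (Finset.mem_univ _) h1
  · rw [Finset.sum_eq_zero]
    · by_contra h1
      refine h fun l => ?_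
      have h2 := MvPolynomial.le_totalDegree (MvPolynomial.mem_support_iff.2 h1)
      have h3 : d l ≤ d.sum fun _ e => e := by
        rw [Finsupp.sum_fintype _ _ fun _ => rfl]
        exact Finset.single_le_sum (f := fun i => d i) (fun _ _ => Nat.zero_le _)
          (Finset.mem_univ l)
      omega
    · intro m _
      rw [if_neg]
      rintro rfl
      exact h fun l => (m l).isLt

theorem fse_map {R F : Type} [CommRing R] [CommRing F] (φ : R →+* F)
    (p : MvPolynomial (Fin (n + 1)) R) :
    MvPolynomial.finSuccEquiv F n (MvPolynomial.map φ p) =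
      (MvPolynomial.finSuccEquiv R n p).map (MvPolynomial.map φ) := by
  ext i m
  rw [MvPolynomial.finSuccEquiv_coeff_coeff, MvPolynomial.coeff_map, Polynomial.coeff_map,
    MvPolynomial.coeff_map, MvPolynomial.finSuccEquiv_coeff_coeff]

theorem deg_map {R F σ : Type} [CommRing R] [CommRing F] (φ : R →+* F)
    (p : MvPolynomial σ R) : (MvPolynomial.map φ p).totalDegree ≤ p.totalDegree := by
  unfold MvPolynomial.totalDegree
  exact Finset.sup_mono (MvPolynomial.support_map_subset _ _)

/-- the degrees of the coefficients of a factor -/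
theorem deg_coeff {R F : Type} [CommRing R] [Field F] (φ : R →+* F)
    {P : Polynomial (MvPolynomial (Fin n) R)} {A B : Polynomial (MvPolynomial (Fin n) F)}
    (hA : A ≠ 0) (hB : B ≠ 0) (h : A * B = P.map (MvPolynomial.map φ)) (i : ℕ) :
    (A.coeff i).totalDegree ≤ ((MvPolynomial.finSuccEquiv R n).symm P).totalDegree := by
  have h1 : (MvPolynomial.finSuccEquiv F n).symm (P.map (MvPolynomial.map φ)) =
      MvPolynomial.map φ ((MvPolynomial.finSuccEquiv R n).symm P) := by
    rw [AlgEquiv.symm_apply_eq, fse_map, AlgEquiv.apply_symm_apply]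
  have h2 : (MvPolynomial.finSuccEquiv F n).symm A * (MvPolynomial.finSuccEquiv F n).symm B =
      MvPolynomial.map φ ((MvPolynomial.finSuccEquiv R n).symm P) := by
    rw [← map_mul, h, h1]
  have hA' : (MvPolynomial.finSuccEquiv F n).symm A ≠ 0 := by
    rwa [Ne, EmbeddingLike.map_eq_zero_iff]
  have hB' : (MvPolynomial.finSuccEquiv F n).symm B ≠ 0 := by
    rwa [Ne, EmbeddingLike.map_eq_zero_iff]
  have h3 : ((MvPolynomial.finSuccEquiv F n).symm A).totalDegree ≤
      ((MvPolynomial.finSuccEquiv R n).symm P).totalDegree := by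
    refine le_trans ?_ (deg_map φ _)
    rw [← h2, MvPolynomial.totalDegree_mul_of_isDomain hA' hB']
    exact Nat.le_add_right _ _
  by_cases h0 : A.coeff i = 0
  · rw [h0, MvPolynomial.totalDegree_zero]
    exact Nat.zero_le _
  · have h4 := MvPolynomial.totalDegree_coeff_finSuccEquiv_add_le
      ((MvPolynomial.finSuccEquiv F n).symm A) i (by rwa [AlgEquiv.apply_symm_apply])
    rw [AlgEquiv.apply_symm_apply] at h4
    exact (Nat.le_add_right _ _).trans (h4.trans h3)

/-- the variables -/
abbrev Idx (n D a b : ℕ) : Type := (Fin a ⊕ Fin b) × (Fin n → Fin (D + 1))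

/-- the first factor -/
noncomputable def fA (c : Idx n D a b → T) : Polynomial (MvPolynomial (Fin n) T) :=
  pol a fun i => cf fun m => c (Sum.inl i, m)

/-- the second factor -/
noncomputable def fB (c : Idx n D a b → T) : Polynomial (MvPolynomial (Fin n) T) :=
  pol b fun i => cf fun m => c (Sum.inr i, m)

theorem fA_map {T' : Type} [CommRing T'] (ψ : T →+* T') (c : Idx n D a b → T) :
    (fA c).map (MvPolynomial.map ψ) = fA fun s => ψ (c s) := by
  unfold fA
  rw [pol_map]
  simp only [cf_map]

theorem fB_map {T' : Type} [CommRing T'] (ψ : T →+* T') (c : Idx n D a b → T) :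
    (fB c).map (MvPolynomial.map ψ) = fB fun s => ψ (c s) := by
  unfold fB
  rw [pol_map]
  simp only [cf_map]

/-- the difference of the two sides of the system -/
noncomputable def dif {R : Type} [CommRing R] (P : Polynomial (MvPolynomial (Fin n) R))
    (D a b : ℕ) : Polynomial (MvPolynomial (Fin n) (MvPolynomial (Idx n D a b) R)) :=
  fA (fun s : Idx n D a b => MvPolynomial.X s) * fB (fun s : Idx n D a b => MvPolynomial.X s) -
    P.map (MvPolynomial.map MvPolynomial.C)

theorem dif_map {R F : Type} [CommRing R] [CommRing F] (φ : R →+* F)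
    (P : Polynomial (MvPolynomial (Fin n) R)) (c : Idx n D a b → F) :
    (dif P D a b).map (MvPolynomial.map (MvPolynomial.eval₂Hom φ c)) =
      fA c * fB c - P.map (MvPolynomial.map φ) := by
  unfold dif
  rw [Polynomial.map_sub, Polynomial.map_mul, fA_map, fB_map, Polynomial.map_map]
  have h1 : (fun s : Idx n D a b => MvPolynomial.eval₂Hom φ c (MvPolynomial.X s)) = c := by
    funext s
    rw [MvPolynomial.coe_eval₂Hom, MvPolynomial.eval₂_X]
  have h2 : (MvPolynomial.map (MvPolynomial.eval₂Hom φ c)).comp
      (MvPolynomial.map (MvPolynomial.C (σ := Idx n D a b) (R := R))) =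
      (MvPolynomial.map φ : MvPolynomial (Fin n) R →+* MvPolynomial (Fin n) F) := by
    refine MvPolynomial.ringHom_ext (fun r => ?_) fun i => ?_
    · simp
    · simp
  rw [h1, h2]

/-- the ideal of the system -/
noncomputable def idl {R : Type} [CommRing R] (P : Polynomial (MvPolynomial (Fin n) R))
    (D a b : ℕ) : Ideal (MvPolynomial (Idx n D a b) R) :=
  Ideal.span {f | ∃ (j : ℕ) (m : Fin n →₀ ℕ), f = MvPolynomial.coeff m ((dif P D a b).coeff j)}

theorem idl_iff {R F : Type} [CommRing R] [CommRing F] (φ : R →+* F)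
    (P : Polynomial (MvPolynomial (Fin n) R)) (c : Idx n D a b → F) :
    (∀ f ∈ idl P D a b, MvPolynomial.eval₂ φ c f = 0) ↔
      fA c * fB c = P.map (MvPolynomial.map φ) := by
  have key : ∀ (j : ℕ) (m : Fin n →₀ ℕ),
      MvPolynomial.eval₂ φ c (MvPolynomial.coeff m ((dif P D a b).coeff j)) =
        MvPolynomial.coeff m ((fA c * fB c - P.map (MvPolynomial.map φ)).coeff j) := by
    intro j m
    rw [← dif_map φ P c, Polynomial.coeff_map, MvPolynomial.coeff_map]
    rfl
  constructor
  · intro h
    rw [← sub_eq_zero]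
    ext j m
    rw [← key j m, h _ (Ideal.subset_span ⟨j, m, rfl⟩)]
    simp
  · intro h f hf
    have h1 : idl P D a b ≤ RingHom.ker (MvPolynomial.eval₂Hom φ c) := by
      unfold idl
      rw [Ideal.span_le]
      rintro g ⟨j, m, rfl⟩
      rw [SetLike.mem_coe, RingHom.mem_ker]
      refine (key j m).trans ?_
      rw [h, sub_self]
      simp
    exact h1 hf

end FacM

open FacM in
theorem tFac : StmtFac := by
  intro R _ n P a b
  refine ⟨Idx n ((MvPolynomial.finSuccEquiv R n).symm P).totalDegree a b, inferInstance,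
    idl P _ a b, fun F _ φ => ⟨fun A B hA hB ha hb hAB => ?_, fun c hc => ?_⟩⟩
  · have hBA : B * A = P.map (MvPolynomial.map φ) := by rw [mul_comm, hAB]
    refine ⟨fun s => Sum.elim (fun i : Fin a => MvPolynomial.coeff (ex s.2) (A.coeff i))
      (fun i : Fin b => MvPolynomial.coeff (ex s.2) (B.coeff i)) s.1, ?_⟩
    rw [idl_iff]
    have h1 : A = fA (D := ((MvPolynomial.finSuccEquiv R n).symm P).totalDegree) (b := b)
        fun s => Sum.elim (fun i : Fin a => MvPolynomial.coeff (ex s.2) (A.coeff i))
          (fun i : Fin b => MvPolynomial.coeff (ex s.2) (B.coeff i)) s.1 := by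
      refine (pol_of hA ha).trans ?_
      unfold fA
      congr 1
      funext i
      exact cf_of (deg_coeff φ hA.ne_zero hB.ne_zero hAB i)
    have h2 : B = fB (D := ((MvPolynomial.finSuccEquiv R n).symm P).totalDegree) (a := a)
        fun s => Sum.elim (fun i : Fin a => MvPolynomial.coeff (ex s.2) (A.coeff i))
          (fun i : Fin b => MvPolynomial.coeff (ex s.2) (B.coeff i)) s.1 := by
      refine (pol_of hB hb).trans ?_
      unfold fB
      congr 1
      funext i
      exact cf_of (deg_coeff φ hB.ne_zero hA.ne_zero hBA i)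
    rw [← h1, ← h2, hAB]
  · exact ⟨fA c, fB c, pol_monic _ _, pol_monic _ _, pol_deg _ _, pol_deg _ _,
      (idl_iff φ P c).1 hc⟩

end Pool.Agent.Lib.MP_16285c_agS.Bez
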