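import Pool.Agent.Lib.MP_16285c_agS.Bez.Spec
import Mathlib.Algebra.GCDMonoid.IntegrallyClosed
import Mathlib.RingTheory.Polynomial.UniqueFactorization

/-!
# Irreducibility of the fibres over the first coordinate

`StmtFib` from `StmtGeo` (geometric irreducibility) and `StmtBN1` (irreducibility in families).
-/

set_option autoImplicit false

namespace Pool.Agent.Lib.MP_16285c_agS.Bez

open scoped IntermediateField

namespace FibM

section one

variable {κ E : Type} [Field κ] [Field E] [Algebra κ E] (x : Fin 2 → E)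

/-- The generator of `κ(x 0)`. -/
private noncomputable def g0 : κ⟮x 0⟯ := IntermediateField.AdjoinSimple.gen κ (x 0)

/-- The polynomials in `x 0`, `x 1` as polynomials in `x 1` over `κ(x 0)`. -/
private noncomputable def Th : MvPolynomial (Fin 2) κ →+* Polynomial κ⟮x 0⟯ :=
  MvPolynomial.eval₂Hom (Polynomial.C.comp (algebraMap κ κ⟮x 0⟯)) ![Polynomial.C (g0 x), Polynomial.X]

private theorem th_aeval : ((Polynomial.aeval (x 1) : Polynomial κ⟮x 0⟯ →ₐ[κ⟮x 0⟯] E).toRingHom).comp (Th x) =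
    (MvPolynomial.aeval x : MvPolynomial (Fin 2) κ →ₐ[κ] E).toRingHom := by
  refine MvPolynomial.ringHom_ext (fun c => ?_) (fun i => ?_)
  · simp only [RingHom.comp_apply, Th, MvPolynomial.eval₂Hom_C, AlgHom.toRingHom_eq_coe,
      RingHom.coe_coe, Polynomial.aeval_C, MvPolynomial.aeval_C]
    exact (IsScalarTower.algebraMap_apply κ κ⟮x 0⟯ E c).symm
  · fin_cases i
    · simp [Th, g0]
    · simp [Th]

private theorem tr1 (hx : AlgebraicIndependent κ x) : Transcendental κ⟮x 0⟯ (x 1) := by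
  rw [IntermediateField.transcendental_adjoin_iff]
  have h := hx.transcendental_adjoin (s := {0}) (i := 1) (by simp)
  rw [Set.image_singleton] at h
  exact h

/-- `κ(x 0)(x 1)` consists of the quotients. -/
private theorem quot (α : E) (h : α ∈ κ⟮x 0⟯⟮x 1⟯) :
    ∃ r s : MvPolynomial (Fin 2) κ, α = MvPolynomial.aeval x r / MvPolynomial.aeval x s := by
  have h1 : α ∈ (κ⟮x 0⟯⟮x 1⟯).restrictScalars κ := h
  rw [IntermediateField.adjoin_adjoin_left] at h1
  rw [← IntermediateField.mem_adjoin_range_iff]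
  have h2 : ({x 0} ∪ {x 1} : Set E) = Set.range x := by
    ext y
    simp only [Set.mem_union, Set.mem_singleton_iff, Set.mem_range, Fin.exists_fin_two]
    constructor
    · rintro (h | h)
      · exact Or.inl h.symm
      · exact Or.inr h.symm
    · rintro (h | h)
      · exact Or.inl h.symm
      · exact Or.inr h.symm
  rw [← h2]
  exact h1

private theorem mem2 (p : MvPolynomial (Fin 2) κ) :
    (MvPolynomial.aeval x : MvPolynomial (Fin 2) κ →ₐ[κ] E).toRingHom p ∈ κ⟮x 0⟯⟮x 1⟯ := by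
  rw [← th_aeval]
  exact IntermediateField.algebra_adjoin_le_adjoin κ⟮x 0⟯ {x 1}
    (Polynomial.aeval_mem_adjoin_singleton κ⟮x 0⟯ (x 1))

/-- The embedding of the polynomials in `κ(x 0)(x 1)`. -/
private noncomputable def j2 : MvPolynomial (Fin 2) κ →+* κ⟮x 0⟯⟮x 1⟯ :=
  ((MvPolynomial.aeval x : MvPolynomial (Fin 2) κ →ₐ[κ] E).toRingHom).codRestrict
    (κ⟮x 0⟯⟮x 1⟯).toSubring (mem2 x)

private theorem j2_comp : (algebraMap κ⟮x 0⟯⟮x 1⟯ E).comp (j2 x) =
    (MvPolynomial.aeval x : MvPolynomial (Fin 2) κ →ₐ[κ] E).toRingHom := by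
  ext <;> rfl

private theorem j2_inj (hx : AlgebraicIndependent κ x) : Function.Injective (j2 (κ := κ) x) := by
  have h : Function.Injective ((algebraMap κ⟮x 0⟯⟮x 1⟯ E).comp (j2 (κ := κ) x)) := by
    rw [j2_comp]
    exact hx
  rw [RingHom.coe_comp] at h
  exact h.of_comp

private theorem j2_irr (hx : AlgebraicIndependent κ x) {P : Polynomial (MvPolynomial (Fin 2) κ)}
    (hP : P.Monic) (hirr : Irreducible P) : Irreducible (P.map (j2 x)) := by
  let _ : Algebra (MvPolynomial (Fin 2) κ) κ⟮x 0⟯⟮x 1⟯ := (j2 x).toAlgebra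
  have _ : FaithfulSMul (MvPolynomial (Fin 2) κ) κ⟮x 0⟯⟮x 1⟯ :=
    (faithfulSMul_iff_algebraMap_injective _ _).2 (j2_inj x hx)
  have _ : IsIntegrallyClosed (MvPolynomial (Fin 2) κ) := by
    let _ := UniqueFactorizationMonoid.toGCDMonoid (MvPolynomial (Fin 2) κ)
    infer_instance
  have _ : IsFractionRing (MvPolynomial (Fin 2) κ) κ⟮x 0⟯⟮x 1⟯ := by
    refine IsFractionRing.of_field _ _ fun α => ?_
    obtain ⟨r, s, h⟩ := quot x α.1 α.2
    refine ⟨r, s, Subtype.ext ?_⟩
    rw [h]
    rfl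
  exact (hP.irreducible_iff_irreducible_map_fraction_map (K := κ⟮x 0⟯⟮x 1⟯)).1 hirr

end one

end FibM

open FibM in
theorem tFib : StmtGeo → StmtBN1 → StmtFib := by
  intro hGeo hBN κ E _ _ _ _ x z hx P hP hirr hroot hder halg
  -- the minimal polynomial
  have hP2 : (P.map (j2 x)).Monic := hP.map _
  have hev : Polynomial.aeval z (P.map (j2 x)) = 0 := by
    rw [Polynomial.aeval_def, Polynomial.eval₂_map, ← Polynomial.eval_map, j2_comp]
    exact hroot
  have hmin : P.map (j2 x) = minpoly κ⟮x 0⟯⟮x 1⟯ z :=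
    minpoly.eq_of_irreducible_of_monic (j2_irr x hx hP hirr) hev hP2
  have hPE : (P.map (j2 x)).map (algebraMap κ⟮x 0⟯⟮x 1⟯ E) =
      P.map (MvPolynomial.aeval x : MvPolynomial (Fin 2) κ →ₐ[κ] E).toRingHom := by
    rw [Polynomial.map_map, j2_comp]
  have hsep : (P.map (MvPolynomial.aeval x : MvPolynomial (Fin 2) κ →ₐ[κ] E).toRingHom).Separable := by
    rw [← hPE]
    refine Polynomial.Separable.map ?_
    rw [Polynomial.separable_iff_derivative_ne_zero (j2_irr x hx hP hirr), Polynomial.derivative_map]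
    exact (Polynomial.map_ne_zero_iff (j2_inj x hx)).2 hder
  have hP1E : (P.map (Th x)).map (Polynomial.aeval (x 1) : Polynomial κ⟮x 0⟯ →ₐ[κ⟮x 0⟯] E).toRingHom =
      P.map (MvPolynomial.aeval x : MvPolynomial (Fin 2) κ →ₐ[κ] E).toRingHom := by
    rw [Polynomial.map_map, th_aeval]
  obtain ⟨Ω, _, _, φ, hφ⟩ := hGeo κ⟮x 0⟯ E (x 1) z (tr1 x hx)
    (fun α hα => ⟨⟨α, halg α hα⟩, rfl⟩) (P.map (Th x)) (hP.map _) (by rw [hP1E]; exact hroot)
    (by rw [← hmin, hP.natDegree_map, hP.natDegree_map]) (by rw [hP1E]; exact hsep)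
  -- the family
  set ι : Polynomial κ →+* Ω :=
    φ.comp ((Polynomial.aeval (g0 x) : Polynomial κ →ₐ[κ] κ⟮x 0⟯).toRingHom) with hι
  have hιinj : Function.Injective ι := by
    refine φ.injective.comp ?_
    have h1 : Transcendental κ (x 0) := hx.transcendental 0
    have h2 : Transcendental κ (g0 (κ := κ) x) := by
      intro h
      exact h1 ((isAlgebraic_algebraMap_iff (algebraMap κ⟮x 0⟯ E).injective).2 h)
    exact transcendental_iff_injective.1 h2
  set P' : Polynomial (Polynomial (Polynomial κ)) := P.map (MvPolynomial.eval₂Hom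
    (Polynomial.C.comp Polynomial.C) ![Polynomial.C Polynomial.X, Polynomial.X]) with hP'
  have hPι : P'.map (Polynomial.mapRingHom ι) = (P.map (Th x)).map (Polynomial.mapRingHom φ) := by
    rw [hP', Polynomial.map_map, Polynomial.map_map]
    congr 1
    refine MvPolynomial.ringHom_ext (fun c => ?_) (fun i => ?_)
    · simp [Th, hι]
    · fin_cases i
      · simp [Th, hι]
      · simp [Th]
  obtain ⟨g, hg, hF⟩ := hBN (Polynomial κ) Ω ι hιinj P' (hP.map _) (by rw [hPι]; exact hφ)
  refine ⟨g, hg, fun F _ φ' η hη => ?_⟩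
  have h := hF F (Polynomial.eval₂RingHom φ' η) hη
  have hPF : P'.map (Polynomial.mapRingHom (Polynomial.eval₂RingHom φ' η)) =
      P.map (MvPolynomial.eval₂Hom (Polynomial.C.comp φ') ![Polynomial.C η, Polynomial.X]) := by
    rw [hP', Polynomial.map_map]
    congr 1
    refine MvPolynomial.ringHom_ext (fun c => ?_) (fun i => ?_)
    · simp
    · fin_cases i
      · simp
      · simp
  rw [hPF] at h
  exact h

end Pool.Agent.Lib.MP_16285c_agS.Bez
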