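import Pool.Agent.Lib.MP_16285c_agS.Bez.Spec
import Mathlib.FieldTheory.PurelyInseparable.PerfectClosure
import Mathlib.Algebra.Polynomial.Lifts
import Mathlib.Algebra.Polynomial.Expand
import Mathlib.FieldTheory.Normal.Basic
import Mathlib.RingTheory.Polynomial.RationalRoot
import Mathlib.RingTheory.PrincipalIdealDomain

/-!
# Geometric irreducibility

`StmtGeo`: the minimal polynomial `A` of `z` over `Ω[x]` is fixed by the automorphisms of the algebraic
closure over `E`, so a power of it has coefficients in `k`.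
-/

set_option autoImplicit false

namespace Pool.Agent.Lib.MP_16285c_agS.Bez

open Polynomial

open scoped IntermediateField

namespace GeoM

/-- An element fixed by all automorphisms is purely inseparable. -/
theorem fixed_pow (E Γ : Type) [Field E] [Field Γ] [Algebra E Γ] [IsAlgClosed Γ] [Algebra.IsAlgebraic E Γ]
    (q : ℕ) [ExpChar E q] (a : Γ) (h : ∀ τ : Γ ≃ₐ[E] Γ, τ a = a) :
    ∃ n : ℕ, a ^ q ^ n ∈ (algebraMap E Γ).range := by
  classical
  have : IsAlgClosure E Γ := ⟨inferInstance, inferInstance⟩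
  have : Normal E Γ := IsAlgClosure.normal E Γ
  have hi : IsIntegral E a := (Algebra.IsAlgebraic.isAlgebraic a).isIntegral
  refine (minpoly.natSepDegree_eq_one_iff_pow_mem q).1 ?_
  rw [natSepDegree_eq_of_isAlgClosed Γ]
  have hS : ((minpoly E a).aroots Γ).toFinset = {a} := by
    ext b
    rw [Multiset.mem_toFinset, mem_aroots, Finset.mem_singleton]
    constructor
    · rintro ⟨_, hb⟩
      have h1 : minpoly E a = minpoly E b :=
        minpoly.eq_of_irreducible_of_monic (minpoly.irreducible hi) hb (minpoly.monic hi)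
      obtain ⟨τ, hτ⟩ := (Normal.minpoly_eq_iff_mem_orbit Γ).1 h1.symm
      rw [← hτ]
      exact h τ
    · rintro rfl
      exact ⟨minpoly.ne_zero hi, minpoly.aeval _ _⟩
  rw [hS, Finset.card_singleton]

/-- A uniform exponent. -/
theorem unif (k Ω : Type) [Field k] [Field Ω] (φ : k →+* Ω) (q : ℕ) (S : Finset Ω)
    (h : ∀ a ∈ S, ∃ n : ℕ, a ^ q ^ n ∈ Set.range φ) :
    ∃ n : ℕ, ∀ a ∈ S, a ^ q ^ n ∈ Set.range φ := by
  classical
  induction S using Finset.induction_on with
  | empty => exact ⟨0, fun a ha => absurd ha (Finset.notMem_empty a)⟩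
  | insert b S hb ih =>
    obtain ⟨n, hn⟩ := ih fun a ha => h a (Finset.mem_insert_of_mem ha)
    obtain ⟨m, hm⟩ := h b (Finset.mem_insert_self b S)
    refine ⟨n + m, fun a ha => ?_⟩
    rcases Finset.mem_insert.1 ha with rfl | ha
    · obtain ⟨c, hc⟩ := hm
      refine ⟨c ^ q ^ n, ?_⟩
      rw [map_pow, hc, ← pow_mul, ← pow_add, add_comm]
    · obtain ⟨c, hc⟩ := hn a ha
      refine ⟨c ^ q ^ m, ?_⟩
      rw [map_pow, hc, ← pow_mul, ← pow_add]

/-- The power of a polynomial whose coefficients have their powers in the range. -/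
theorem pow_lifts1 (k Ω : Type) [Field k] [Field Ω] (φ : k →+* Ω) (q : ℕ) [ExpChar Ω q] (n : ℕ)
    (B : Polynomial Ω) (h : ∀ i, (B.coeff i) ^ q ^ n ∈ Set.range φ) :
    B ^ q ^ n ∈ Set.range (Polynomial.mapRingHom φ) := by
  have hq : 0 < q ^ n := expChar_pow_pos Ω q n
  have h0 : B ^ q ^ n ∈ lifts φ := by
    rw [lifts_iff_coeff_lifts, ← map_iterateFrobenius_expand q B n]
    intro i
    rw [coeff_map, coeff_expand hq]
    split_ifs with hd
    · exact h _
    · exact ⟨0, by rw [map_zero, map_zero]⟩
  obtain ⟨Q, hQ⟩ := (mem_lifts _).1 h0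
  exact ⟨Q, hQ⟩

theorem pow_lifts2 (k Ω : Type) [Field k] [Field Ω] (φ : k →+* Ω) (q : ℕ) [ExpChar Ω q] (n : ℕ)
    (A : Polynomial (Polynomial Ω)) (h : ∀ j i, ((A.coeff j).coeff i) ^ q ^ n ∈ Set.range φ) :
    ∃ Q : Polynomial (Polynomial k), Q.map (Polynomial.mapRingHom φ) = A ^ q ^ n := by
  have hq : 0 < q ^ n := expChar_pow_pos Ω q n
  have : ExpChar (Polynomial Ω) q := expChar_of_injective_ringHom (C_injective (R := Ω)) q
  have h0 : A ^ q ^ n ∈ lifts (Polynomial.mapRingHom φ) := by
    rw [lifts_iff_coeff_lifts, ← map_iterateFrobenius_expand q A n]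
    intro j
    rw [coeff_map, coeff_expand hq]
    split_ifs with hd
    · exact pow_lifts1 k Ω φ q n _ (h _)
    · exact ⟨0, by rw [map_zero, map_zero]⟩
  exact (mem_lifts _).1 h0

end GeoM

/-- **Z7**. -/
theorem tGeo : StmtGeo := by
  intro k E _ _ _ x z hx hk P hP hz hdeg hsep
  classical
  -- the algebraic closures
  let Γ := AlgebraicClosure E
  let Ω : IntermediateField k Γ := algebraicClosure k Γ
  have hΩ : IsAlgClosed Ω := (algebraicClosure.isAlgClosure k Γ).isAlgClosed
  let φ : k →+* Ω := algebraMap k Ω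
  refine ⟨Ω, inferInstance, hΩ, φ, ?_⟩
  set x' : Γ := algebraMap E Γ x with hx'
  set z' : Γ := algebraMap E Γ z with hz'
  have hinjE : Function.Injective (algebraMap E Γ) := (algebraMap E Γ).injective
  have htr : Transcendental k x' := fun h => hx ((isAlgebraic_algebraMap_iff hinjE).1 h)
  have htr' : Transcendental Ω x' := htr.algebraicClosure
  let ax : Polynomial k →+* E := (Polynomial.aeval x : Polynomial k →ₐ[k] E).toRingHom
  let e : Polynomial Ω →+* Γ := (Polynomial.aeval x' : Polynomial Ω →ₐ[Ω] Γ).toRingHom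
  have he : Function.Injective e := transcendental_iff_injective.1 htr'
  have heC : ∀ a : Ω, e (C a) = (a : Γ) := fun a => Polynomial.aeval_C x' a
  have heX : e X = x' := Polynomial.aeval_X x'
  have hcomp : e.comp (Polynomial.mapRingHom φ) = (algebraMap E Γ).comp ax := by
    apply Polynomial.ringHom_ext
    · intro a
      have h1 : ax (C a) = algebraMap k E a := Polynomial.aeval_C x a
      rw [RingHom.comp_apply, RingHom.comp_apply, Polynomial.coe_mapRingHom, Polynomial.map_C, heC, h1]
      exact IsScalarTower.algebraMap_apply k E Γ a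
    · have h1 : ax X = x := Polynomial.aeval_X x
      rw [RingHom.comp_apply, RingHom.comp_apply, Polynomial.coe_mapRingHom, Polynomial.map_X, heX, h1]
  let algS : Algebra (Polynomial Ω) Γ := e.toAlgebra
  have halg : algebraMap (Polynomial Ω) Γ = e := rfl
  have htf : Module.IsTorsionFree (Polynomial Ω) Γ := Module.isTorsionFree_iff_algebraMap_injective.2 he
  -- the transfer of values
  have htrans : ∀ Q : Polynomial (Polynomial k), Polynomial.aeval z' (Q.map (Polynomial.mapRingHom φ)) =
      algebraMap E Γ ((Q.map ax).eval z) := by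
    intro Q
    rw [Polynomial.aeval_def, halg, Polynomial.eval₂_map, hcomp, Polynomial.eval_map, hz',
      Polynomial.hom_eval₂]
  set P' : Polynomial (Polynomial Ω) := P.map (Polynomial.mapRingHom φ) with hP'
  have hP'm : P'.Monic := hP.map _
  have hP'z : Polynomial.aeval z' P' = 0 := by
    rw [hP', htrans]
    have h1 : (P.map ax).eval z = 0 := hz
    rw [h1, map_zero]
  have hint : IsIntegral (Polynomial Ω) z' := ⟨P', hP'm, by rw [← Polynomial.aeval_def]; exact hP'z⟩
  set A : Polynomial (Polynomial Ω) := minpoly (Polynomial Ω) z' with hA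
  have hAm : A.Monic := minpoly.monic hint
  have hAz : Polynomial.aeval z' A = 0 := minpoly.aeval _ _
  have hAirr : Irreducible A := minpoly.irreducible hint
  have hAP : A ∣ P' := minpoly.isIntegrallyClosed_dvd hint hP'z
  -- the coefficients of `A` are fixed
  have hfix : ∀ (τ : Γ ≃ₐ[E] Γ) (j i : ℕ), τ (((A.coeff j).coeff i : Ω) : Γ) = (((A.coeff j).coeff i : Ω) : Γ) := by
    intro τ j i
    let τk : Γ ≃ₐ[k] Γ := τ.restrictScalars k
    let σ : Ω ≃ₐ[k] Ω := algebraicClosure.algEquivOfAlgEquiv τk
    have hσ : ∀ a : Ω, ((σ a : Ω) : Γ) = τ (a : Γ) := fun a => rfl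
    let σr : Ω →+* Ω := (σ : Ω →+* Ω)
    have hc2 : e.comp (Polynomial.mapRingHom σr) = (τ : Γ →+* Γ).comp e := by
      apply Polynomial.ringHom_ext
      · intro a
        rw [RingHom.comp_apply, RingHom.comp_apply, Polynomial.coe_mapRingHom, Polynomial.map_C, heC, heC]
        exact hσ a
      · rw [RingHom.comp_apply, RingHom.comp_apply, Polynomial.coe_mapRingHom, Polynomial.map_X, heX]
        exact (τ.commutes x).symm
    have hB : Polynomial.aeval z' (A.map (Polynomial.mapRingHom σr)) = 0 := by
      have h1 : (τ : Γ →+* Γ) z' = z' := τ.commutes z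
      have h2 : Polynomial.eval₂ e z' A = 0 := by
        have := hAz
        rwa [Polynomial.aeval_def, halg] at this
      rw [Polynomial.aeval_def, halg, Polynomial.eval₂_map, hc2]
      conv_lhs => rw [← h1]
      rw [← Polynomial.hom_eval₂, h2, map_zero]
    have hd : A ∣ A.map (Polynomial.mapRingHom σr) := minpoly.isIntegrallyClosed_dvd hint hB
    have heq : A.map (Polynomial.mapRingHom σr) = A :=
      Polynomial.eq_of_monic_of_dvd_of_natDegree_le hAm (hAm.map _) hd
        (by rw [hAm.natDegree_map])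
    have h3 : σ ((A.coeff j).coeff i) = (A.coeff j).coeff i := by
      conv_rhs => rw [← heq]
      rw [Polynomial.coeff_map, Polynomial.coe_mapRingHom, Polynomial.coeff_map]
      rfl
    rw [← hσ, h3]
  -- powers of the coefficients are in `k`
  let q : ℕ := ringExpChar E
  have hqE : ExpChar E q := ringExpChar.expChar E
  have hqk : ExpChar k q := RingHom.expChar (algebraMap k E) (algebraMap k E).injective q
  have hqΩ : ExpChar Ω q := expChar_of_injective_ringHom φ.injective q
  have hpow : ∀ j i : ℕ, ∃ n : ℕ, ((A.coeff j).coeff i) ^ q ^ n ∈ Set.range φ := by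
    intro j i
    obtain ⟨n, b, hb⟩ := GeoM.fixed_pow E Γ q (((A.coeff j).coeff i : Ω) : Γ) fun τ => hfix τ j i
    have h1 : IsAlgebraic k (algebraMap E Γ b) := by
      have hb' : algebraMap E Γ b = (((A.coeff j).coeff i : Ω) : Γ) ^ q ^ n := hb
      rw [hb']
      exact (mem_algebraicClosure_iff.1 ((A.coeff j).coeff i).2).pow _
    obtain ⟨c, hc⟩ := hk b ((isAlgebraic_algebraMap_iff hinjE).1 h1)
    refine ⟨n, c, ?_⟩
    apply Subtype.ext
    have h2 : ((φ c : Ω) : Γ) = algebraMap E Γ (algebraMap k E c) := IsScalarTower.algebraMap_apply k E Γ c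
    rw [h2, hc]
    exact hb
  obtain ⟨n, hn⟩ := GeoM.unif k Ω φ q (A.support.biUnion fun j => (A.coeff j).support.image fun i => (A.coeff j).coeff i)
    (by
      intro a ha
      obtain ⟨j, _, hj⟩ := Finset.mem_biUnion.1 ha
      obtain ⟨i, _, rfl⟩ := Finset.mem_image.1 hj
      exact hpow j i)
  have hqn : 0 < q ^ n := expChar_pow_pos Ω q n
  have hn' : ∀ j i, ((A.coeff j).coeff i) ^ q ^ n ∈ Set.range φ := by
    intro j i
    by_cases h0 : (A.coeff j).coeff i = 0
    · rw [h0, zero_pow hqn.ne']
      exact ⟨0, map_zero φ⟩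
    · apply hn
      refine Finset.mem_biUnion.2 ⟨j, ?_, Finset.mem_image.2 ⟨i, ?_, rfl⟩⟩
      · rw [Polynomial.mem_support_iff]
        intro h1
        rw [h1, Polynomial.coeff_zero] at h0
        exact h0 rfl
      · exact Polynomial.mem_support_iff.2 h0
  obtain ⟨Q, hQ⟩ := GeoM.pow_lifts2 k Ω φ q n A hn'
  -- `P` divides `Q`
  have hQz : (Q.map ax).eval z = 0 := by
    apply hinjE
    rw [← htrans, hQ, map_pow, hAz, zero_pow hqn.ne', map_zero]
  let g : Polynomial k →+* k⟮x⟯ := (Polynomial.aeval (IntermediateField.AdjoinSimple.gen k x) : Polynomial k →ₐ[k] k⟮x⟯).toRingHom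
  have hg : (algebraMap k⟮x⟯ E).comp g = ax := by
    apply Polynomial.ringHom_ext
    · intro a
      have h1 : ax (C a) = algebraMap k E a := Polynomial.aeval_C x a
      have h2 : g (C a) = algebraMap k k⟮x⟯ a := Polynomial.aeval_C _ a
      rw [RingHom.comp_apply, h1, h2]
      rfl
    · have h1 : ax X = x := Polynomial.aeval_X x
      have h2 : g X = IntermediateField.AdjoinSimple.gen k x := Polynomial.aeval_X _
      rw [RingHom.comp_apply, h1, h2]
      exact IntermediateField.AdjoinSimple.algebraMap_gen k x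
  have haxinj : Function.Injective ax := transcendental_iff_injective.1 hx
  have hginj : Function.Injective g := by
    intro a b hab
    apply haxinj
    rw [← hg, RingHom.comp_apply, RingHom.comp_apply, hab]
  have hev : ∀ R : Polynomial (Polynomial k), Polynomial.aeval z (R.map g) = (R.map ax).eval z := by
    intro R
    rw [Polynomial.aeval_def, Polynomial.eval₂_map, hg, Polynomial.eval_map]
  have hPg : minpoly k⟮x⟯ z = P.map g := by
    have hm : (P.map g).Monic := hP.map _
    have h0 : Polynomial.aeval z (P.map g) = 0 := by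
      rw [hev]; exact hz
    have hi : IsIntegral k⟮x⟯ z := ⟨P.map g, hm, h0⟩
    exact (Polynomial.eq_of_monic_of_dvd_of_natDegree_le (minpoly.monic hi) hm (minpoly.dvd _ _ h0)
      (by rw [hP.natDegree_map, hdeg])).symm
  have hPQ : P ∣ Q := by
    rw [← Polynomial.map_dvd_map g hginj hP, ← hPg]
    apply minpoly.dvd
    rw [hev, hQz]
  have hP'A : P' ∣ A ^ q ^ n := by
    rw [← hQ]
    exact Polynomial.map_dvd _ hPQ
  -- the end
  obtain ⟨B, hB⟩ := hAP
  have hBm : B.Monic := hAm.of_mul_monic_left (hB ▸ hP'm)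
  have hBA : B ∣ A ^ q ^ n := (Dvd.intro_left A hB.symm).trans hP'A
  have hsep' : (A.map e * B.map e).Separable := by
    rw [← Polynomial.map_mul, ← hB, hP', Polynomial.map_map, hcomp, ← Polynomial.map_map]
    exact Polynomial.Separable.map hsep
  have hcop : IsCoprime ((A.map e) ^ q ^ n) (B.map e) := hsep'.isCoprime.pow_left
  have hBu : IsUnit (B.map e) := hcop.isUnit_of_dvd' (by
    rw [← Polynomial.map_pow]
    exact Polynomial.map_dvd _ hBA) dvd_rfl
  have hB1 : B.map e = 1 := (hBm.map e).eq_one_of_isUnit hBu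
  have hB2 : B = 1 := by
    apply Polynomial.map_injective e he
    rw [hB1, Polynomial.map_one]
  rw [hB, hB2, mul_one]
  exact hAirr

end Pool.Agent.Lib.MP_16285c_agS.Bez
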