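import Pool.Agent.Lib.MP_16285c_agS.Bez.Null
import Pool.Agent.Lib.MP_16285c_agS.Bez.Fac
import Pool.Agent.Lib.MP_16285c_agS.Bez.BN
import Pool.Agent.Lib.MP_16285c_agS.Bez.BN1
import Pool.Agent.Lib.MP_16285c_agS.Bez.BertA
import Pool.Agent.Lib.MP_16285c_agS.Bez.Bert0
import Pool.Agent.Lib.MP_16285c_agS.Bez.Geo
import Pool.Agent.Lib.MP_16285c_agS.Bez.Fib
import Pool.Agent.Lib.MP_16285c_agS.Hrx.Thr

/-!
# Irreducibility in families and a theorem of Bertini: all statements proved
-/

set_option autoImplicit false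

namespace Pool.Agent.Lib.MP_16285c_agS.Bez

/-- Irreducibility in families. -/
theorem aBN : StmtBN := tBN tNull tFac

/-- The same in the format of three variables. -/
theorem aBN3 : StmtBN3 := tBN3 aBN

/-- Bertini. -/
theorem aBert3 : StmtBert3 := tBert3 (tBert0 tBertA)

/-- The fibres. -/
theorem aFib3 : StmtFib3 := tFib3 (tFib tGeo (tBN1 aBN))

end Pool.Agent.Lib.MP_16285c_agS.Bez
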