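import Pool.Agent.Lib.MP_16285c_agS.Bez.Spec

/-!
# The weak Nullstellensatz over a domain (Z1)
-/

set_option autoImplicit false

namespace Pool.Agent.Lib.MP_16285c_agS.Bez

open MvPolynomial in
attribute [local instance] MvPolynomial.algebraMvPolynomial in
theorem tNull : StmtNull := by
  intro R Ω _ _ _ _ ι hι σ _ I hI
  have key : (1 : MvPolynomial σ (FractionRing R)) ∈
      I.map (algebraMap (MvPolynomial σ R) (MvPolynomial σ (FractionRing R))) := by
    by_contra h1
    have hne : I.map (algebraMap (MvPolynomial σ R) (MvPolynomial σ (FractionRing R))) ≠ ⊤ := by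
      intro h
      exact h1 (h ▸ Submodule.mem_top)
    obtain ⟨m, hm, hle⟩ := Ideal.exists_le_maximal _ hne
    letI : Field (MvPolynomial σ (FractionRing R) ⧸ m) := Ideal.Quotient.field m
    haveI : Algebra.FiniteType (FractionRing R) (MvPolynomial σ (FractionRing R) ⧸ m) :=
      Algebra.FiniteType.of_surjective (Ideal.Quotient.mkₐ (FractionRing R) m)
        (Ideal.Quotient.mkₐ_surjective _ _)
    haveI : Module.Finite (FractionRing R) (MvPolynomial σ (FractionRing R) ⧸ m) :=
      finite_of_finite_type_of_isJacobsonRing _ _
    letI : Algebra (FractionRing R) Ω := (IsFractionRing.lift (K := FractionRing R) hι).toAlgebra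
    haveI : Algebra.IsAlgebraic (FractionRing R) (MvPolynomial σ (FractionRing R) ⧸ m) :=
      Algebra.IsAlgebraic.of_finite _ _
    let ψ : (MvPolynomial σ (FractionRing R) ⧸ m) →ₐ[FractionRing R] Ω := IsAlgClosed.lift
    obtain ⟨f, hf, hf0⟩ := hI (fun s => ψ (Ideal.Quotient.mk m (X s)))
    apply hf0
    have e : MvPolynomial.eval₂ ι (fun s => ψ (Ideal.Quotient.mk m (X s))) f =
        ψ (Ideal.Quotient.mk m (MvPolynomial.map (algebraMap R (FractionRing R)) f)) := by
      have : (MvPolynomial.eval₂Hom ι (fun s => ψ (Ideal.Quotient.mk m (X s)))) =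
          (ψ.toRingHom.comp (Ideal.Quotient.mk m)).comp
            (MvPolynomial.map (algebraMap R (FractionRing R))) := by
        apply MvPolynomial.ringHom_ext
        · intro r
          rw [MvPolynomial.coe_eval₂Hom, MvPolynomial.eval₂_C]
          simp only [RingHom.comp_apply, MvPolynomial.map_C]
          have h2 : (Ideal.Quotient.mk m) (C (algebraMap R (FractionRing R) r)) =
              algebraMap (FractionRing R) (MvPolynomial σ (FractionRing R) ⧸ m)
                (algebraMap R (FractionRing R) r) := rfl
          rw [h2]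
          have h3 := ψ.commutes (algebraMap R (FractionRing R) r)
          have h4 : algebraMap (FractionRing R) Ω (algebraMap R (FractionRing R) r) = ι r :=
            IsFractionRing.lift_algebraMap hι r
          rw [← h4]
          exact h3.symm
        · intro s
          rw [MvPolynomial.coe_eval₂Hom, MvPolynomial.eval₂_X]
          simp only [RingHom.comp_apply, MvPolynomial.map_X]
          rfl
      exact congrArg (fun g => g f) this
    rw [e]
    have hmem : MvPolynomial.map (algebraMap R (FractionRing R)) f ∈ m :=
      hle (Ideal.mem_map_of_mem _ hf)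
    rw [Ideal.Quotient.eq_zero_iff_mem.mpr hmem, map_zero]
  rw [IsLocalization.mem_map_algebraMap_iff
    ((nonZeroDivisors R).map (MvPolynomial.C (σ := σ)))] at key
  obtain ⟨⟨⟨f, hf⟩, ⟨_, g, hg, rfl⟩⟩, h⟩ := key
  refine ⟨g, nonZeroDivisors.ne_zero hg, ?_⟩
  have hinj : Function.Injective
      (MvPolynomial.map (σ := σ) (algebraMap R (FractionRing R))) :=
    MvPolynomial.map_injective _ (IsFractionRing.injective R (FractionRing R))
  have h' : MvPolynomial.map (algebraMap R (FractionRing R)) (MvPolynomial.C g) =
      MvPolynomial.map (algebraMap R (FractionRing R)) f := by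
    rw [one_mul] at h
    exact h
  rw [hinj h']
  exact hf

end Pool.Agent.Lib.MP_16285c_agS.Bez
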