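import Mathlib.FieldTheory.PrimitiveElement
import Mathlib.FieldTheory.AlgebraicClosure
import Mathlib.FieldTheory.IsAlgClosed.AlgebraicClosure
import Mathlib.FieldTheory.IsAlgClosed.Basic
import Mathlib.RingTheory.Jacobson.Ring
import Mathlib.RingTheory.MvPolynomial.Localization
import Mathlib.RingTheory.AlgebraicIndependent.AlgebraicClosure
import Mathlib.RingTheory.Polynomial.GaussLemma
import Mathlib.FieldTheory.Minpoly.IsIntegrallyClosed
import Mathlib.Algebra.MvPolynomial.NoZeroDivisors

/-!
# Irreducibility in families and a theorem of Bertini: statements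

`StmtBN`: if `P ∈ R[X₁, …, Xₙ][Z]` is monic and irreducible over an algebraically closed field containing the domain `R`, then its
image is irreducible over every field `F` for every `φ : R → F` with `φ g ≠ 0`, for one `g ≠ 0` of `R`. `StmtFib`: the fibres over the
line `x₁` of a surface `P(x₁, x₂, z) = 0` whose function field `E` does not contain algebraic elements over `κ(x₁)` outside
`κ(x₁)`. `StmtBert0`: this holds after `x₁ ↦ x₁ + t x₂` for all but finitely many `t`.

Every lemma is a `Prop` with its proof in the docstring; the files proving them are independent: used statements are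
hypotheses (`theorem tBN : StmtNull → StmtFac → StmtBN`). In `Fin n`-variables the coefficient ring is `MvPolynomial (Fin n) R` and `Z` is the
variable of `Polynomial`.
-/

set_option autoImplicit false

namespace Pool.Agent.Lib.MP_16285c_agS.Bez

open scoped IntermediateField

/-- (Z1) The weak Nullstellensatz over a domain. PROOF. Let `K = FractionRing R` and let `J = I.map (MvPolynomial.map (algebraMap R K))`, an ideal of
`MvPolynomial σ K` (the map is `algebraMap (MvPolynomial σ R) (MvPolynomial σ K)`). Suppose `J ≠ ⊤`; let `m ⊇ J` be maximal (`Ideal.exists_le_maximal`);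
`L = MvPolynomial σ K ⧸ m` is a field, finitely generated as a `K`-algebra, so finite over `K` (`finite_of_finite_type_of_isJacobsonRing`), so
algebraic. `ι` extends to `K → Ω` (`IsFractionRing.lift`), which makes `Ω` a `K`-algebra, and `IsAlgClosed.lift` is a `K`-homomorphism
`ψ : L → Ω`. Let `a s = ψ` of the class of `X s`. Then `eval₂ ι a f = ψ` (class of the image of `f`) for every `f`, which is `0` for `f ∈ I`: a contradiction. So
`1 ∈ J`. `MvPolynomial σ K` is the localization of `MvPolynomial σ R` at the constants `C g`, `g ≠ 0` (`MvPolynomial.isLocalization` in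
`Mathlib/RingTheory/MvPolynomial/Localization.lean`), so by `IsLocalization.mem_map_algebraMap_iff` there are `f ∈ I` and `g ≠ 0` with `1 * C g = f` in
`MvPolynomial σ K`, so `C g = f` (`MvPolynomial.map_injective`). -/
def StmtNull : Prop :=
  ∀ (R Ω : Type) [CommRing R] [IsDomain R] [Field Ω] [IsAlgClosed Ω] (ι : R →+* Ω), Function.Injective ι →
    ∀ (σ : Type) [Finite σ] (I : Ideal (MvPolynomial σ R)),
      (∀ a : σ → Ω, ∃ f ∈ I, MvPolynomial.eval₂ ι a f ≠ 0) →
      ∃ g : R, g ≠ 0 ∧ MvPolynomial.C g ∈ I

/-- (Z2) Factorizations into monic factors of given degrees are the solutions of a polynomial system. PROOF. Let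
`D = totalDegree ((MvPolynomial.finSuccEquiv R n).symm P)`, `σ = (Fin a ⊕ Fin b) × (Fin n → Fin (D + 1))`, `S = MvPolynomial σ R`. For a ring `T` and
`c : σ → T` let `A_c = Z ^ a + ∑ i : Fin a, (∑ m, C (c (inl i, m)) * ∏ l, X l ^ (m l : ℕ)) Z ^ i` in `T[X][Z]` and `B_c` in the same way with `b`, `inr`. `I` is the ideal
of `S` spanned by all the coefficients `coeff m (coeff j (A_X * B_X - P'))`, where `A_X`, `B_X` are formed with `T = S`, `c = X` and `P'` is the image of `P`
under `C : R → S`. The ring homomorphism `eval₂ φ c : S → F` maps `A_X` to `A_c`, so all elements of `I` vanish at `c` iff `A_c * B_c = P^φ`; the `A_c`, `B_c`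
are monic of degrees `a`, `b`. This proves the second part. First part: let `A * B = P^φ` be as assumed. `A' = finSuccEquiv.symm A` and `B'` satisfy
`A' * B' = finSuccEquiv.symm (P^φ)`, the image of `finSuccEquiv.symm P`, of total degree `≤ D`; both are not zero, so
`totalDegree A' ≤ D` (`MvPolynomial.totalDegree_mul_of_isDomain`) and the coefficients of `A` have total degree `≤ D`
(`MvPolynomial.totalDegree_coeff_finSuccEquiv_add_le`), so all exponents of their monomials are `≤ D`: `A = A_c`, `B = B_c` for a suitable `c`. -/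
def StmtFac : Prop :=
  ∀ (R : Type) [CommRing R] (n : ℕ) (P : Polynomial (MvPolynomial (Fin n) R)), ∀ a b : ℕ,
    ∃ (σ : Type) (_ : Finite σ) (I : Ideal (MvPolynomial σ R)), ∀ (F : Type) [Field F] (φ : R →+* F),
      (∀ A B : Polynomial (MvPolynomial (Fin n) F), A.Monic → B.Monic → A.natDegree = a → B.natDegree = b →
        A * B = P.map (MvPolynomial.map φ) → ∃ c : σ → F, ∀ f ∈ I, MvPolynomial.eval₂ φ c f = 0) ∧
      (∀ c : σ → F, (∀ f ∈ I, MvPolynomial.eval₂ φ c f = 0) →
        ∃ A B : Polynomial (MvPolynomial (Fin n) F), A.Monic ∧ B.Monic ∧ A.natDegree = a ∧ B.natDegree = b ∧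
          A * B = P.map (MvPolynomial.map φ))

/-- (Z3) Irreducibility in families. PROOF (uses `StmtNull`, `StmtFac`). Let `δ = P.natDegree` (the degree of all the images, `P` is monic). For `1 ≤ a`, `1 ≤ b`,
`a + b = δ` let `σ`, `I` be as in `StmtFac`. `I` has no zero in `Ω`: it would give a factorization of `P^ι` into monic factors of positive degree,
which are not units. So `StmtNull` gives `g_a ≠ 0` with `C g_a ∈ I`. Let `g` be the product of the `g_a`. Let `φ g ≠ 0`. `P^φ` is monic and not `1` (if `δ = 0`
then `P^ι = 1` is not irreducible). By `Polynomial.Monic.irreducible_iff_natDegree` a failure gives monic `A`, `B` of degrees `a, b ≥ 1` with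
`A * B = P^φ`, `a + b = δ`, so by `StmtFac` a zero `c` of `I` in `F`, and `φ g_a = eval₂ φ c (C g_a) = 0`: a contradiction. -/
def StmtBN : Prop :=
  ∀ (R Ω : Type) [CommRing R] [IsDomain R] [Field Ω] [IsAlgClosed Ω] (ι : R →+* Ω), Function.Injective ι →
    ∀ (n : ℕ) (P : Polynomial (MvPolynomial (Fin n) R)), P.Monic →
      Irreducible (P.map (MvPolynomial.map ι)) →
      ∃ g : R, g ≠ 0 ∧ ∀ (F : Type) [Field F] (φ : R →+* F), φ g ≠ 0 →
        Irreducible (P.map (MvPolynomial.map φ))

/-- (Z4) The same for one variable `X`, in the format `R[X][Z]`. PROOF (uses `StmtBN` with `n = 1`). There is a ring isomorphism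
`e_R : Polynomial R ≃+* MvPolynomial (Fin 1) R` with `e_R (C r) = C r`, `e_R X = X 0` (for example `Polynomial.eval₂RingHom C (X 0)` and
`MvPolynomial.eval₂Hom C (fun _ => X)`, inverse to each other by `ringHom_ext`), natural in `R`: `e_F (p.map φ) = MvPolynomial.map φ (e_R p)`. Apply `StmtBN` to
`P.map e_R`; ring isomorphisms (`Polynomial.mapEquiv`) preserve `Irreducible` (`MulEquiv.irreducible_iff`). -/
def StmtBN1 : Prop :=
  ∀ (R Ω : Type) [CommRing R] [IsDomain R] [Field Ω] [IsAlgClosed Ω] (ι : R →+* Ω), Function.Injective ι →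
    ∀ P : Polynomial (Polynomial R), P.Monic →
      Irreducible (P.map (Polynomial.mapRingHom ι)) →
      ∃ g : R, g ≠ 0 ∧ ∀ (F : Type) [Field F] (φ : R →+* F), φ g ≠ 0 →
        Irreducible (P.map (Polynomial.mapRingHom φ))

/-- (Z5) PROOF. Let `K[T]`, `κ[T]` be the subrings of `E` generated by `T` over `K`, `κ`; `K[T]` is isomorphic to the polynomial ring `K[X]` (`T` is
transcendental over `K`), so it is integrally closed, and its fraction field is the field `K(T)` of the statement (it is
`K⟮T⟯` as a set; `open scoped IntermediateField.algebraAdjoinAdjoin` gives `IsFractionRing (Algebra.adjoin K {T}) K⟮T⟯`; compare `bd_pid` in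
`Pool/Agent/Lib/MP_16285c_agZ/Hru/Bd.lean`). `α` is algebraic over `κ(T)`, so there is `c ∈ κ[X]`, `c ≠ 0`, with `β = c(T) α` integral over `κ[T]`
(`exists_integral_multiple`, `κ(T)` is the fraction field of `κ[T]`). `β ∈ K(T)` is integral over `K[T]`, so `β = u(T)` with `u ∈ K[X]`. Let `β` be a root of the monic
`m ∈ κ[T][Y]`, i.e. `m ∈ κ[X][Y]` with `m(X, u(X)) = 0` in `K[X]` (`T` is transcendental over `K`). For every `s : κ` the value `u(s) : K` is a root of the monic
`m(s, Y) ∈ κ[Y]`, so it is algebraic over `κ`, so in `κ` (`κ` is algebraically closed: `IsAlgClosed.algebraMap_surjective_of_isIntegral` or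
`IntermediateField`-free: `minpoly` has degree one). `κ` is infinite; the polynomial `u` of degree `≤ N` is the Lagrange
interpolation (`Lagrange.interpolate`, or uniqueness of the solution of a Vandermonde system) of its values at `N + 1` points of `κ`, which are in `κ`, so `u`
has coefficients in `κ`. So `β ∈ κ[T]` and `α ∈ κ(T)`. -/
def StmtBertA : Prop :=
  ∀ (κ E : Type) [Field κ] [IsAlgClosed κ] [Field E] [Algebra κ E] (K : IntermediateField κ E) (T : E),
    Transcendental K T → ∀ α ∈ IntermediateField.adjoin κ ((K : Set E) ∪ {T}),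
      IsAlgebraic κ⟮T⟯ α → α ∈ κ⟮T⟯

/-- (Z6) Bertini. PROOF (uses `StmtBertA`). `M = κ(x₁, x₂) = IntermediateField.adjoin κ {x₁, x₂}`. There are only finitely many intermediate fields of `E / M`
(`Field.exists_primitive_element`, `Field.exists_primitive_element_iff_finite_intermediateField`). For `t : κ` let `l_t = x₁ + t x₂`, `K_t = {α | α algebraic over
κ(l_t)}` as an intermediate field of `E / κ` (`(algebraicClosure κ⟮l_t⟯ E).restrictScalars κ`), `L_t = IntermediateField.adjoin M K_t`. It is enough to show: if
`t ≠ t'`, `L_t = L_{t'}` then `t'` is not in the set of the statement (then `t ↦ L_t` is injective on it). Let `α` be algebraic over `κ(l_{t'})`, so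
`α ∈ K_{t'} ⊆ L_{t'} = L_t`. `x₁, x₂` are linear combinations of `l_t ∈ K_t` and `T = l_{t'}` with coefficients in `κ`, so `L_t`, as a set, is contained in
`IntermediateField.adjoin κ (K_t ∪ {T})`. `T` is transcendental over `K_t`: otherwise it is algebraic over `κ(l_t)` (transitivity, `K_t` is
algebraic over `κ(l_t)`), so `x₁` and `x₂` are, in contradiction to the algebraic independence (transcendence degree: `{l_t}` would be
a transcendence basis of `M`; or: `l_t, l_{t'}` are algebraically independent because `x₁, x₂` are polynomials in them, e.g. compose a relation with the linear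
change of variables). By `StmtBertA` `α ∈ κ(T)`. -/
def StmtBert0 : Prop :=
  ∀ (κ E : Type) [Field κ] [IsAlgClosed κ] [Field E] [Algebra κ E] (x : Fin 2 → E), AlgebraicIndependent κ x →
    Module.Finite (IntermediateField.adjoin κ (Set.range x)) E →
    Algebra.IsSeparable (IntermediateField.adjoin κ (Set.range x)) E →
    {t : κ | ¬ ∀ α : E, IsAlgebraic κ⟮x 0 + algebraMap κ E t * x 1⟯ α →
      α ∈ κ⟮x 0 + algebraMap κ E t * x 1⟯}.Finite

/-- (Z7) Geometric irreducibility. PROOF. Let `Γ = AlgebraicClosure E` and let `Ω = algebraicClosure k Γ`, the algebraic closure of `k` in `Γ`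
(algebraically closed by `algebraicClosure.isAlgClosure`), `φ = algebraMap k Ω`. `x ∈ E ⊆ Γ` is transcendental over `k`, so over `Ω`. Identify `Ω[X]` with
the subring `Ω[x]` of `Γ`, integrally closed. `z` is integral over `Ω[x]` (root of `P(x, ·)`); let `A ∈ Ω[X][Z]` be its minimal polynomial over `Ω[x]`; it is monic,
`A(x, z) = 0`, and it is irreducible over `Ω(x)` and divides in `Ω[X][Z]` every `Q ∈ Ω[X][Z]` with `Q(x, z) = 0` (`minpoly.isIntegrallyClosed_dvd`,
`minpoly.isIntegrallyClosed_eq_field_fractions`, `Polynomial.Monic.irreducible_iff_irreducible_map_fraction_map`).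
(1) Every `E`-automorphism `τ` of `Γ` maps `Ω` to itself (it fixes `k`) and fixes `x` and `z`, so `A^τ` (coefficients of the
coefficients) is again monic with the root `z` of the same degree, so `A^τ = A` (`A` divides `A^τ`). So all `a ∈ Ω` which are
coefficients of `A` (of the coefficients in `Ω[X]`) are fixed by all `τ ∈ Aut(Γ / E)`, so purely inseparable over `E`: there is a power `q` of the exponential
characteristic of `k` (`q = 1` in characteristic `0`) with `a ^ q ∈ E` for all of them (finitely many). [`Γ / E` is normal; for an element of `Γ` fixed by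
all automorphisms the minimal polynomial over `E` has only one root; `perfectClosure`, `mem_perfectClosure_iff_natSepDegree_eq_one`,
`perfectClosure.eq_bot...`, `IntermediateField.fixingSubgroup`; or `isPurelyInseparable`-API: `mem_perfectClosure_iff_pow_mem` and
`perfectClosure.map..`, `Field.Emb`.] As `a ^ q` is algebraic over `k` and in `E`, it is in `k`.
(2) So `A ^ q = ∑ a_{ij} ^ q X ^ (q i) Z ^ (q j)` (Frobenius; trivial if `q = 1`) has coefficients in `k`: `A ^ q = Q^φ`, `Q ∈ k[X][Z]`, `Q(x, z) = 0`. By hypothesis `P` mapped to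
`k(x)[Z]` is irreducible with the root `z`, so it divides `Q` over `k(x)`, and `P ∣ Q` in `k[X][Z]` (`P` is monic; `Polynomial.Monic.dvd_iff_fraction_map_dvd_fraction_map`-style
lemmas, or division with remainder by the monic `P`). So `P^φ ∣ A ^ q`.
(3) `A ∣ P^φ`, `P^φ = A B`. `P^φ` mapped to `Ω(X)[Z]` is separable (`hsep`, separability is preserved by field extensions and it may be checked
after `X ↦ x` in `Γ[Z]`), so `A` and `B` are relatively prime over `Ω(x)`; `B ∣ P^φ ∣ A ^ q` gives that `B` is a unit over `Ω(x)`, so `B = 1` (monic). So `P^φ = A` is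
irreducible in `Ω[X][Z]`. -/
def StmtGeo : Prop :=
  ∀ (k E : Type) [Field k] [Field E] [Algebra k E] (x z : E), Transcendental k x →
    (∀ α : E, IsAlgebraic k α → ∃ c : k, algebraMap k E c = α) →
    ∀ P : Polynomial (Polynomial k), P.Monic →
      (P.map (Polynomial.aeval x : Polynomial k →ₐ[k] E).toRingHom).eval z = 0 →
      (minpoly k⟮x⟯ z).natDegree = P.natDegree →
      (P.map (Polynomial.aeval x : Polynomial k →ₐ[k] E).toRingHom).Separable →
      ∃ (Ω : Type) (_ : Field Ω) (_ : IsAlgClosed Ω) (φ : k →+* Ω),
        Irreducible (P.map (Polynomial.mapRingHom φ))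

/-- (Z8) The fibres over the `x₁`-line. PROOF (uses `StmtGeo`, `StmtBN1`). Let `k = κ⟮x 0⟯ ⊆ E`, `a = algebraMap κ k`, and
`P₁ = P.map (MvPolynomial.eval₂Hom (Polynomial.C.comp a) ![Polynomial.C x₀, Polynomial.X])` in `k[X][Z]`, monic of degree `δ = P.natDegree`, `P₁(x 1, z) = 0`. `x 1` is
transcendental over `k` (algebraic independence). The minimal polynomial of `z` over `k⟮x 1⟯` has the degree `δ`: it is `≤ δ`; conversely let
`q ∈ k⟮x 1⟯[Z]`, `q ≠ 0`, `q(z) = 0`; every element of `k⟮x 1⟯` is a quotient of two polynomials (over `κ`) in `x 0, x 1`, so after multiplication with a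
common denominator `q` is the image of some `Q ∈ MvPolynomial (Fin 2) κ [Z]`, `Q ≠ 0` of the same degree, with `Q(x, z) = 0`. `P` is irreducible, so irreducible over the
fraction field of `MvPolynomial (Fin 2) κ` (`Polynomial.Monic.irreducible_iff_irreducible_map_fraction_map`), and `P`, `Q` have the common root `z` in `E` (where
`MvPolynomial (Fin 2) κ` is embedded by `x`), so they are not relatively prime over this fraction field and `P ∣ Q` there, so
`δ ≤ Q.natDegree`. (Or: `k⟮x 1⟯` is a fraction field of `MvPolynomial (Fin 2) κ` and the image of `P` is irreducible over it with the root `z`.)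
Separable: the image of `P` in `E[Z]` is the image of a minimal polynomial over `k⟮x 1⟯`, irreducible of degree `δ`; its derivative is not zero
(`P.derivative ≠ 0`, the coefficients are embedded by `x`), so it is separable (`Polynomial.separable_iff_derivative_ne_zero`, `Polynomial.separable_map`).
`StmtGeo` gives `Ω`, `φ`. Let `R = Polynomial κ`, `ι : R → Ω`, `T ↦ φ (x 0)`, injective as `x 0` is transcendental over `κ`;
`P_R = P.map (MvPolynomial.eval₂Hom (Polynomial.C.comp Polynomial.C) ![Polynomial.C Polynomial.X, Polynomial.X])` in `R[X][Z]`, monic, `P_R^ι = P₁^φ` (`MvPolynomial.ringHom_ext`).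
`StmtBN1` gives `h ∈ R`, `h ≠ 0`; for `ψ : R → F`, `ψ = Polynomial.eval₂RingHom φ' η`, one has `ψ h = h.eval₂ φ' η` and `P_R^ψ` is the polynomial of the statement. -/
def StmtFib : Prop :=
  ∀ (κ E : Type) [Field κ] [IsAlgClosed κ] [Field E] [Algebra κ E] (x : Fin 2 → E) (z : E),
    AlgebraicIndependent κ x → ∀ P : Polynomial (MvPolynomial (Fin 2) κ), P.Monic → Irreducible P →
      (P.map (MvPolynomial.aeval x : MvPolynomial (Fin 2) κ →ₐ[κ] E).toRingHom).eval z = 0 →
      Polynomial.derivative P ≠ 0 →
      (∀ α : E, IsAlgebraic κ⟮x 0⟯ α → α ∈ κ⟮x 0⟯) →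
      ∃ h : Polynomial κ, h ≠ 0 ∧ ∀ (F : Type) [Field F] (φ : κ →+* F) (η : F), h.eval₂ φ η ≠ 0 →
        Irreducible (P.map (MvPolynomial.eval₂Hom (Polynomial.C.comp φ)
          ![Polynomial.C η, Polynomial.X]))

end Pool.Agent.Lib.MP_16285c_agS.Bez
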